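import Pool.Agent.W845.HC.Base

set_option autoImplicit false
open scoped Classical
open scoped BigOperators

namespace Pool.Agent.W849.HC

open Pool.Agent.W845.PM Pool.Agent.W845.HC

/-! ### A finite acyclic graph has no set of edges of minimum degree two -/

theorem acy {V : Type} [Fintype V] (E : SimpleGraph V) (h : E.IsAcyclic)
    (h2 : ∀ u v, E.Adj u v → ∃ w, w ≠ v ∧ E.Adj u w) : ∀ u v, ¬ E.Adj u v := by
  intro u v huv
  have : Nonempty V := ⟨u⟩
  obtain ⟨x, y, p, hp, hmax⟩ := SimpleGraph.Walk.exists_isPath_forall_isPath_length_le_length E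
  have hlen : 1 ≤ p.length := by
    have := hmax u v huv.toWalk (SimpleGraph.Walk.IsPath.of_adj huv)
    simpa using this
  have hnil : ¬ p.Nil := by
    intro hn
    have := SimpleGraph.Walk.length_eq_zero_iff.mpr hn
    omega
  obtain ⟨w, hw, hyw⟩ := h2 y p.penultimate (p.adj_penultimate hnil).symm
  by_cases hs : w ∈ p.support
  · exact hw (h.eq_penultimate_of_adj_end hp hyw hs)
  · have := hmax _ _ _ (hp.concat hs hyw)
    rw [SimpleGraph.Walk.length_concat] at this
    omega

/-! ### Independent sets -/

theorem ind0 {α : Type} (C : α → α → Prop) (hsym : ∀ a b, C a b → C b a)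
    (hirr : ∀ a, ¬ C a a) : ∀ S : Finset α,
    (∀ T : Finset α, T ⊆ S → T.Nonempty → ∃ a ∈ T, (T.filter (fun b => C a b)).card ≤ 1) →
    ∃ Z : Finset α, Z ⊆ S ∧ (∀ a ∈ Z, ∀ b ∈ Z, ¬ C a b) ∧ S.card ≤ 2 * Z.card := by
  intro S
  induction S using Finset.strongInduction with
  | H S ih =>
    intro hS
    by_cases he : S.Nonempty
    · obtain ⟨a, haS, ha⟩ := hS S (Finset.Subset.refl S) he
      have hsub : S.filter (fun b => b ≠ a ∧ ¬ C a b) ⊂ S := by
        refine Finset.ssubset_iff_subset_ne.mpr ⟨Finset.filter_subset _ _, ?_⟩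
        intro heq
        have : a ∈ S.filter (fun b => b ≠ a ∧ ¬ C a b) := by rw [heq]; exact haS
        exact (Finset.mem_filter.mp this).2.1 rfl
      obtain ⟨Z, hZ, hZi, hZc⟩ := ih _ hsub (fun T hT hTn => hS T (hT.trans hsub.1) hTn)
      have haZ : a ∉ Z := fun h => (Finset.mem_filter.mp (hZ h)).2.1 rfl
      refine ⟨insert a Z, ?_, ?_, ?_⟩
      · intro b hb
        rcases Finset.mem_insert.mp hb with rfl | hb
        · exact haS
        · exact hsub.1 (hZ hb)
      · intro b hb c hc h
        rcases Finset.mem_insert.mp hb with hb1 | hb1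
        · rcases Finset.mem_insert.mp hc with hc1 | hc1
          · rw [hb1, hc1] at h
            exact hirr _ h
          · rw [hb1] at h
            exact (Finset.mem_filter.mp (hZ hc1)).2.2 h
        · rcases Finset.mem_insert.mp hc with hc1 | hc1
          · rw [hc1] at h
            exact (Finset.mem_filter.mp (hZ hb1)).2.2 (hsym _ _ h)
          · exact hZi b hb1 c hc1 h
      · rw [Finset.card_insert_of_notMem haZ]
        have h1 : S ⊆ (S.filter (fun b => b ≠ a ∧ ¬ C a b)) ∪
            ({a} ∪ S.filter (fun b => C a b)) := by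
          intro b hb
          simp only [Finset.mem_union, Finset.mem_filter, Finset.mem_singleton]
          by_cases h1 : b = a
          · exact Or.inr (Or.inl h1)
          · by_cases h2 : C a b
            · exact Or.inr (Or.inr ⟨hb, h2⟩)
            · exact Or.inl ⟨hb, h1, h2⟩
        have h2 := Finset.card_le_card h1
        have h3 := Finset.card_union_le (S.filter (fun b => b ≠ a ∧ ¬ C a b))
          ({a} ∪ S.filter (fun b => C a b))
        have h4 := Finset.card_union_le ({a} : Finset α) (S.filter (fun b => C a b))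
        rw [Finset.card_singleton] at h4
        omega
    · rw [Finset.not_nonempty_iff_eq_empty] at he
      subst he
      exact ⟨∅, Finset.Subset.refl _, by simp, by simp⟩

/-- Every element has at least two partners in the set. -/
def TD {α : Type} (C : α → α → Prop) (D : Finset α) : Prop :=
  D.Nonempty ∧ ∀ a ∈ D, 2 ≤ (D.filter (fun b => C a b)).card

theorem ind1 {α : Type} (C : α → α → Prop) (hsym : ∀ a b, C a b → C b a)
    (hirr : ∀ a, ¬ C a a) (g : ℕ) : ∀ S : Finset α,
    (∀ a ∈ S, (S.filter (fun b => C a b)).card ≤ 2) →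
    (∀ D : Finset α, D ⊆ S → D.Nonempty → (∀ a ∈ D, 2 ≤ (D.filter (fun b => C a b)).card) →
      g ≤ D.card) →
    ∃ Z : Finset α, Z ⊆ S ∧ (∀ a ∈ Z, ∀ b ∈ Z, ¬ C a b) ∧
      g * S.card ≤ 2 * g * Z.card + S.card := by
  intro S
  induction S using Finset.strongInduction with
  | H S ih =>
    intro hdeg hS
    have hdeg' : ∀ S' : Finset α, S' ⊆ S → ∀ a ∈ S', (S'.filter (fun b => C a b)).card ≤ 2 := by
      intro S' hS' a ha
      exact (Finset.card_le_card (Finset.filter_subset_filter _ hS')).trans (hdeg a (hS' ha))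
    by_cases he : S.Nonempty
    · by_cases hA : ∃ a ∈ S, (S.filter (fun b => C a b)).card ≤ 1
      · obtain ⟨a, haS, ha⟩ := hA
        have hsub : S.filter (fun b => b ≠ a ∧ ¬ C a b) ⊂ S := by
          refine Finset.ssubset_iff_subset_ne.mpr ⟨Finset.filter_subset _ _, ?_⟩
          intro heq
          have : a ∈ S.filter (fun b => b ≠ a ∧ ¬ C a b) := by rw [heq]; exact haS
          exact (Finset.mem_filter.mp this).2.1 rfl
        obtain ⟨Z, hZ, hZi, hZc⟩ := ih _ hsub (hdeg' _ hsub.1)
          (fun T hT hTn => hS T (hT.trans hsub.1) hTn)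
        have haZ : a ∉ Z := fun h => (Finset.mem_filter.mp (hZ h)).2.1 rfl
        refine ⟨insert a Z, ?_, ?_, ?_⟩
        · intro b hb
          rcases Finset.mem_insert.mp hb with rfl | hb
          · exact haS
          · exact hsub.1 (hZ hb)
        · intro b hb c hc h
          rcases Finset.mem_insert.mp hb with hb1 | hb1
          · rcases Finset.mem_insert.mp hc with hc1 | hc1
            · rw [hb1, hc1] at h
              exact hirr _ h
            · rw [hb1] at h
              exact (Finset.mem_filter.mp (hZ hc1)).2.2 h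
          · rcases Finset.mem_insert.mp hc with hc1 | hc1
            · rw [hc1] at h
              exact (Finset.mem_filter.mp (hZ hb1)).2.2 (hsym _ _ h)
            · exact hZi b hb1 c hc1 h
        · rw [Finset.card_insert_of_notMem haZ]
          have h1 : S ⊆ (S.filter (fun b => b ≠ a ∧ ¬ C a b)) ∪
              ({a} ∪ S.filter (fun b => C a b)) := by
            intro b hb
            simp only [Finset.mem_union, Finset.mem_filter, Finset.mem_singleton]
            by_cases h1 : b = a
            · exact Or.inr (Or.inl h1)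
            · by_cases h2 : C a b
              · exact Or.inr (Or.inr ⟨hb, h2⟩)
              · exact Or.inl ⟨hb, h1, h2⟩
          have h2 := Finset.card_le_card h1
          have h3 := Finset.card_union_le (S.filter (fun b => b ≠ a ∧ ¬ C a b))
            ({a} ∪ S.filter (fun b => C a b))
          have h4 := Finset.card_union_le ({a} : Finset α) (S.filter (fun b => C a b))
          rw [Finset.card_singleton] at h4
          have h5 := Finset.card_le_card hsub.1
          have h6 : S.card ≤ (S.filter (fun b => b ≠ a ∧ ¬ C a b)).card + 2 := by omega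
          have h7 : g * S.card ≤ g * ((S.filter (fun b => b ≠ a ∧ ¬ C a b)).card + 2) :=
            Nat.mul_le_mul_left g h6
          nlinarith
      · push Not at hA
        -- a minimal set with all degrees at least two
        have hex : (S.powerset.filter (fun D => TD C D)).Nonempty := by
          refine ⟨S, ?_⟩
          rw [Finset.mem_filter, Finset.mem_powerset]
          exact ⟨Finset.Subset.refl _, he, fun a ha => hA a ha⟩
        obtain ⟨D, hDm, hDmin⟩ := Finset.exists_min_image _ Finset.card hex
        rw [Finset.mem_filter, Finset.mem_powerset] at hDm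
        obtain ⟨hDS, hDn, hD2⟩ := hDm
        have hgD := hS D hDS hDn hD2
        have hclosed : ∀ a ∈ D, ∀ b ∈ S, C a b → b ∈ D := by
          intro a ha b hb hab
          have hsub : D.filter (fun b => C a b) ⊆ S.filter (fun b => C a b) :=
            Finset.filter_subset_filter _ hDS
          have heq := Finset.eq_of_subset_of_card_le hsub
            ((hdeg a (hDS ha)).trans (hD2 a ha))
          have : b ∈ D.filter (fun b => C a b) := by
            rw [heq, Finset.mem_filter]; exact ⟨hb, hab⟩
          exact (Finset.mem_filter.mp this).1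
        obtain ⟨x, hx⟩ := hDn
        have hT : ∀ T : Finset α, T ⊆ D.erase x → T.Nonempty →
            ∃ a ∈ T, (T.filter (fun b => C a b)).card ≤ 1 := by
          intro T hT hTn
          by_contra hcon
          push Not at hcon
          have hTD : T ⊆ D := hT.trans (Finset.erase_subset _ _)
          have h1 : T ∈ S.powerset.filter (fun D => TD C D) := by
            rw [Finset.mem_filter, Finset.mem_powerset]
            exact ⟨hTD.trans hDS, hTn, fun a ha => hcon a ha⟩
          have h2 := hDmin T h1
          have h3 := Finset.card_le_card hT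
          have h4 := Finset.card_erase_lt_of_mem hx
          omega
        obtain ⟨Z1, hZ1, hZ1i, hZ1c⟩ := ind0 C hsym hirr (D.erase x) hT
        have hss : S \ D ⊂ S := by
          refine Finset.ssubset_iff_subset_ne.mpr ⟨Finset.sdiff_subset, ?_⟩
          intro heq
          have : x ∈ S \ D := by rw [heq]; exact hDS hx
          exact (Finset.mem_sdiff.mp this).2 hx
        obtain ⟨Z2, hZ2, hZ2i, hZ2c⟩ := ih _ hss (hdeg' _ hss.1)
          (fun T hT hTn => hS T (hT.trans hss.1) hTn)
        have hZ1D : Z1 ⊆ D := hZ1.trans (Finset.erase_subset _ _)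
        have hdis : Disjoint Z1 Z2 := by
          rw [Finset.disjoint_left]
          intro a h1 h2
          exact (Finset.mem_sdiff.mp (hZ2 h2)).2 (hZ1D h1)
        refine ⟨Z1 ∪ Z2, ?_, ?_, ?_⟩
        · exact Finset.union_subset (hZ1D.trans hDS) (hZ2.trans hss.1)
        · intro a ha b hb hab
          rcases Finset.mem_union.mp ha with ha | ha
          · rcases Finset.mem_union.mp hb with hb | hb
            · exact hZ1i a ha b hb hab
            · have h1 := Finset.mem_sdiff.mp (hZ2 hb)
              exact h1.2 (hclosed a (hZ1D ha) b h1.1 hab)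
          · rcases Finset.mem_union.mp hb with hb | hb
            · have h1 := Finset.mem_sdiff.mp (hZ2 ha)
              exact h1.2 (hclosed b (hZ1D hb) a h1.1 (hsym _ _ hab))
            · exact hZ2i a ha b hb hab
        · rw [Finset.card_union_of_disjoint hdis]
          have h1 := Finset.card_sdiff_add_card_eq_card hDS
          have h2 := Finset.card_erase_of_mem hx
          have h3 : D.card ≤ 2 * Z1.card + 1 := by omega
          have h4 : g * D.card ≤ g * (2 * Z1.card + 1) := Nat.mul_le_mul_left g h3
          rw [← h1]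
          nlinarith
    · rw [Finset.not_nonempty_iff_eq_empty] at he
      subst he
      exact ⟨∅, Finset.Subset.refl _, by simp, by simp⟩

/-! ### Counting -/

theorem sum_fst {V : Type} [Fintype V] (M : Finset (V × V)) :
    ∑ v, (M.filter (fun e => e.1 = v)).card = M.card :=
  (Finset.card_eq_sum_card_fiberwise (fun e _ => Finset.mem_univ e.1)).symm

theorem dg_pairs {V : Type} [Fintype V] (F : SimpleGraph V) (P : Finset (V × V))
    (h : ∀ u v, F.Adj u v ↔ (u, v) ∈ P) (v : V) :
    dg F v = (P.filter (fun e => e.1 = v)).card := by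
  unfold dg
  refine Finset.card_bij (fun w _ => (v, w)) ?_ ?_ ?_
  · intro w hw
    rw [Finset.mem_filter] at hw ⊢
    exact ⟨(h v w).mp hw.2, rfl⟩
  · intro a _ b _ hab
    exact (Prod.mk.inj hab).2
  · rintro ⟨a, b⟩ hb
    rw [Finset.mem_filter] at hb
    obtain ⟨hb1, hb2⟩ := hb
    simp only at hb2
    subst hb2
    exact ⟨b, by rw [Finset.mem_filter]; exact ⟨Finset.mem_univ _, (h a b).mpr hb1⟩, rfl⟩

theorem two_ec {V : Type} [Fintype V] (F : SimpleGraph V) (P : Finset (V × V))
    (h : ∀ u v, F.Adj u v ↔ (u, v) ∈ P) : 2 * ec F = P.card := by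
  have h1 : ec F = F.edgeFinset.card := by
    unfold ec
    rw [← SimpleGraph.coe_edgeFinset, Set.ncard_coe_finset]
  rw [h1, ← SimpleGraph.sum_degrees_eq_twice_card_edges, ← sum_fst P]
  refine Finset.sum_congr rfl (fun v _ => ?_)
  rw [← dg_pairs F P h v]
  unfold dg
  rw [← SimpleGraph.card_neighborFinset_eq_degree]
  congr 1
  ext w
  simp

/-! ### The conflict relation -/

/-- Conflict of half arcs, `f` being the number of full edges at a vertex. -/
def Cf {V : Type} (f : V → ℕ) (a b : V × V) : Prop :=
  a ≠ b ∧ ((a.1 = b.1 ∧ f a.1 = 0) ∨ (a.2 = b.2 ∧ f a.2 = 0) ∨ (a.2 = b.1 ∧ f a.2 = 1) ∨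
    (a.1 = b.2 ∧ f a.1 = 1))

theorem Cf_symm {V : Type} (f : V → ℕ) (a b : V × V) (h : Cf f a b) : Cf f b a := by
  obtain ⟨h0, h⟩ := h
  refine ⟨h0.symm, ?_⟩
  rcases h with ⟨h1, h2⟩ | ⟨h1, h2⟩ | ⟨h1, h2⟩ | ⟨h1, h2⟩
  · exact Or.inl ⟨h1.symm, h1 ▸ h2⟩
  · exact Or.inr (Or.inl ⟨h1.symm, h1 ▸ h2⟩)
  · exact Or.inr (Or.inr (Or.inr ⟨h1.symm, h1 ▸ h2⟩))
  · exact Or.inr (Or.inr (Or.inl ⟨h1.symm, h1 ▸ h2⟩))

theorem Cf_irr {V : Type} (f : V → ℕ) (a : V × V) : ¬ Cf f a a := fun h => h.1 rfl

/-- Partners at the tail. -/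
def Ct {V : Type} (f : V → ℕ) (a b : V × V) : Prop :=
  a ≠ b ∧ ((a.1 = b.1 ∧ f a.1 = 0) ∨ (a.1 = b.2 ∧ f a.1 = 1))

/-- Partners at the head. -/
def Ch {V : Type} (f : V → ℕ) (a b : V × V) : Prop :=
  a ≠ b ∧ ((a.2 = b.2 ∧ f a.2 = 0) ∨ (a.2 = b.1 ∧ f a.2 = 1))

theorem Cf_or {V : Type} (f : V → ℕ) (a b : V × V) (h : Cf f a b) : Ct f a b ∨ Ch f a b := by
  obtain ⟨h0, h⟩ := h
  rcases h with h | h | h | h
  · exact Or.inl ⟨h0, Or.inl h⟩
  · exact Or.inr ⟨h0, Or.inl h⟩
  · exact Or.inr ⟨h0, Or.inr h⟩
  · exact Or.inl ⟨h0, Or.inr h⟩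

/-- At most one partner at each end. -/
theorem Ct_card {V : Type} [Fintype V] (f : V → ℕ) (S : Finset (V × V))
    (ho : ∀ v, f v + (S.filter (fun e => e.1 = v)).card ≤ 2)
    (hi : ∀ v, f v + (S.filter (fun e => e.2 = v)).card ≤ 2) (a : V × V) (ha : a ∈ S) :
    (S.filter (fun b => Ct f a b)).card ≤ 1 := by
  rcases Nat.eq_zero_or_pos (f a.1) with h0 | h0
  · -- all partners are out-arcs of a.1 other than a
    have hsub : S.filter (fun b => Ct f a b) ⊆ (S.filter (fun e => e.1 = a.1)).erase a := by
      intro b hb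
      rw [Finset.mem_filter] at hb
      obtain ⟨hbS, hne, hb⟩ := hb
      rw [Finset.mem_erase, Finset.mem_filter]
      refine ⟨hne.symm, hbS, ?_⟩
      rcases hb with ⟨h1, _⟩ | ⟨_, h2⟩
      · exact h1.symm
      · omega
    have h1 := Finset.card_le_card hsub
    have h2 : a ∈ S.filter (fun e => e.1 = a.1) := by
      rw [Finset.mem_filter]; exact ⟨ha, rfl⟩
    have h3 := Finset.card_erase_of_mem h2
    have h4 := ho a.1
    omega
  · by_cases h1 : f a.1 = 1
    · have hsub : S.filter (fun b => Ct f a b) ⊆ (S.filter (fun e => e.2 = a.1)) := by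
        intro b hb
        rw [Finset.mem_filter] at hb
        obtain ⟨hbS, hne, hb⟩ := hb
        rw [Finset.mem_filter]
        refine ⟨hbS, ?_⟩
        rcases hb with ⟨_, h2⟩ | ⟨h2, _⟩
        · omega
        · exact h2.symm
      have h2 := Finset.card_le_card hsub
      have h3 := hi a.1
      omega
    · have hsub : S.filter (fun b => Ct f a b) ⊆ ∅ := by
        intro b hb
        rw [Finset.mem_filter] at hb
        obtain ⟨hbS, hne, hb⟩ := hb
        exfalso
        rcases hb with ⟨_, h2⟩ | ⟨_, h2⟩
        · omega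
        · omega
      have h2 := Finset.card_le_card hsub
      rw [Finset.card_empty] at h2
      omega

theorem Ch_card {V : Type} [Fintype V] (f : V → ℕ) (S : Finset (V × V))
    (ho : ∀ v, f v + (S.filter (fun e => e.1 = v)).card ≤ 2)
    (hi : ∀ v, f v + (S.filter (fun e => e.2 = v)).card ≤ 2) (a : V × V) (ha : a ∈ S) :
    (S.filter (fun b => Ch f a b)).card ≤ 1 := by
  rcases Nat.eq_zero_or_pos (f a.2) with h0 | h0
  · have hsub : S.filter (fun b => Ch f a b) ⊆ (S.filter (fun e => e.2 = a.2)).erase a := by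
      intro b hb
      rw [Finset.mem_filter] at hb
      obtain ⟨hbS, hne, hb⟩ := hb
      rw [Finset.mem_erase, Finset.mem_filter]
      refine ⟨hne.symm, hbS, ?_⟩
      rcases hb with ⟨h1, _⟩ | ⟨_, h2⟩
      · exact h1.symm
      · omega
    have h1 := Finset.card_le_card hsub
    have h2 : a ∈ S.filter (fun e => e.2 = a.2) := by
      rw [Finset.mem_filter]; exact ⟨ha, rfl⟩
    have h3 := Finset.card_erase_of_mem h2
    have h4 := hi a.2
    omega
  · by_cases h1 : f a.2 = 1
    · have hsub : S.filter (fun b => Ch f a b) ⊆ (S.filter (fun e => e.1 = a.2)) := by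
        intro b hb
        rw [Finset.mem_filter] at hb
        obtain ⟨hbS, hne, hb⟩ := hb
        rw [Finset.mem_filter]
        refine ⟨hbS, ?_⟩
        rcases hb with ⟨_, h2⟩ | ⟨h2, _⟩
        · omega
        · exact h2.symm
      have h2 := Finset.card_le_card hsub
      have h3 := ho a.2
      omega
    · have hsub : S.filter (fun b => Ch f a b) ⊆ ∅ := by
        intro b hb
        rw [Finset.mem_filter] at hb
        obtain ⟨hbS, hne, hb⟩ := hb
        exfalso
        rcases hb with ⟨_, h2⟩ | ⟨_, h2⟩
        · omega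
        · omega
      have h2 := Finset.card_le_card hsub
      rw [Finset.card_empty] at h2
      omega

theorem Cf_card {V : Type} (f : V → ℕ) (S : Finset (V × V)) (a : V × V) :
    (S.filter (fun b => Cf f a b)).card ≤
      (S.filter (fun b => Ct f a b)).card + (S.filter (fun b => Ch f a b)).card := by
  refine (Finset.card_le_card ?_).trans (Finset.card_union_le _ _)
  intro b hb
  rw [Finset.mem_filter] at hb
  rw [Finset.mem_union, Finset.mem_filter, Finset.mem_filter]
  rcases Cf_or f a b hb.2 with h | h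
  · exact Or.inl ⟨hb.1, h⟩
  · exact Or.inr ⟨hb.1, h⟩

/-- The girth bound for sets in which every half arc has two partners. -/
theorem girth_bound {V : Type} [Fintype V] (G : SimpleGraph V) (L : ℕ) (hNS : NS L G)
    (f : V → ℕ) (D : Finset (V × V)) (hG : ∀ e ∈ D, G.Adj e.1 e.2)
    (hsw : ∀ e ∈ D, (e.2, e.1) ∉ D)
    (ho : ∀ v, f v + (D.filter (fun e => e.1 = v)).card ≤ 2)
    (hi : ∀ v, f v + (D.filter (fun e => e.2 = v)).card ≤ 2) (hn : D.Nonempty)
    (h2 : ∀ a ∈ D, 2 ≤ (D.filter (fun b => Cf f a b)).card) : L + 3 ≤ D.card := by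
  by_contra hcon
  have hcon' : D.card ≤ L + 2 := by omega
  let E : SimpleGraph V :=
    { Adj := fun u v => (u, v) ∈ D ∨ (v, u) ∈ D
      symm := ⟨fun u v h => h.symm⟩
      loopless := ⟨fun u h => by
        rcases h with h | h
        · exact G.loopless.irrefl u (hG _ h)
        · exact G.loopless.irrefl u (hG _ h)⟩ }
  have hEG : E ≤ G := by
    intro u v h
    rcases h with h | h
    · exact hG _ h
    · exact (hG _ h).symm
  have hec : ec E ≤ D.card := by
    unfold ec
    have hsub : E.edgeSet ⊆ ((D.image (fun e => s(e.1, e.2)) : Finset (Sym2 V)) : Set (Sym2 V)) := by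
      intro e
      refine Sym2.ind (fun u v => ?_) e
      intro h
      rw [SimpleGraph.mem_edgeSet] at h
      rw [Finset.mem_coe, Finset.mem_image]
      rcases h with h | h
      · exact ⟨(u, v), h, rfl⟩
      · exact ⟨(v, u), h, Sym2.eq_swap⟩
    have h1 := Set.ncard_le_ncard hsub (Finset.finite_toSet _)
    rw [Set.ncard_coe_finset] at h1
    exact h1.trans Finset.card_image_le
  have hac := hNS E hEG (hec.trans hcon')
  have ht : ∀ a ∈ D, ∃ b ∈ D, Ct f a b := by
    intro a ha
    have h3 := h2 a ha
    have h4 := Cf_card f D a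
    have h5 := Ch_card f D ho hi a ha
    have h6 : 0 < (D.filter (fun b => Ct f a b)).card := by omega
    obtain ⟨b, hb⟩ := Finset.card_pos.mp h6
    rw [Finset.mem_filter] at hb
    exact ⟨b, hb.1, hb.2⟩
  have hh : ∀ a ∈ D, ∃ b ∈ D, Ch f a b := by
    intro a ha
    have h3 := h2 a ha
    have h4 := Cf_card f D a
    have h5 := Ct_card f D ho hi a ha
    have h6 : 0 < (D.filter (fun b => Ch f a b)).card := by omega
    obtain ⟨b, hb⟩ := Finset.card_pos.mp h6
    rw [Finset.mem_filter] at hb
    exact ⟨b, hb.1, hb.2⟩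
  have hkey : ∀ u v, E.Adj u v → ∃ w, w ≠ v ∧ E.Adj u w := by
    intro u v huv
    rcases huv with huv | huv
    · obtain ⟨b, hb, hne, hb2⟩ := ht _ huv
      obtain ⟨b1, b2⟩ := b
      simp only at hb2
      rcases hb2 with ⟨h1, _⟩ | ⟨h1, _⟩
      · subst h1
        exact ⟨b2, fun h => hne (by rw [h]), Or.inl hb⟩
      · subst h1
        refine ⟨b1, fun h => ?_, Or.inr hb⟩
        subst h
        exact hsw _ huv hb
    · obtain ⟨b, hb, hne, hb2⟩ := hh _ huv
      obtain ⟨b1, b2⟩ := b
      simp only at hb2
      rcases hb2 with ⟨h1, _⟩ | ⟨h1, _⟩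
      · subst h1
        exact ⟨b1, fun h => hne (by rw [h]), Or.inr hb⟩
      · subst h1
        refine ⟨b2, fun h => ?_, Or.inl hb⟩
        subst h
        exact hsw _ huv hb
  obtain ⟨⟨u, v⟩, huv⟩ := hn
  exact acy E hac hkey u v (Or.inl huv)

theorem half : S_HALF := by
  intro V _ G L M hNS hG ho hi
  set Fu : Finset (V × V) := M.filter (fun e => (e.2, e.1) ∈ M) with hFu
  set Hf : Finset (V × V) := M.filter (fun e => (e.2, e.1) ∉ M) with hHf
  have hcard : M.card = Fu.card + Hf.card := by
    rw [hFu, hHf]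
    exact (Finset.card_filter_add_card_filter_not (fun e : V × V => (e.2, e.1) ∈ M)).symm
  let f : V → ℕ := fun v => (Fu.filter (fun e => e.1 = v)).card
  have hf2 : ∀ v, f v = (Fu.filter (fun e => e.2 = v)).card := by
    intro v
    refine Finset.card_bij (fun e _ => (e.2, e.1)) ?_ ?_ ?_
    · intro e he
      rw [Finset.mem_filter, hFu, Finset.mem_filter] at he ⊢
      exact ⟨⟨he.1.2, he.1.1⟩, he.2⟩
    · rintro ⟨a1, a2⟩ _ ⟨b1, b2⟩ _ hab
      simp only [Prod.mk.injEq] at hab ⊢
      exact ⟨hab.2, hab.1⟩
    · rintro ⟨b1, b2⟩ hb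
      refine ⟨(b2, b1), ?_, rfl⟩
      rw [Finset.mem_filter, hFu, Finset.mem_filter] at hb ⊢
      exact ⟨⟨hb.1.2, hb.1.1⟩, hb.2⟩
  have hHo : ∀ v, f v + (Hf.filter (fun e => e.1 = v)).card ≤ 2 := by
    intro v
    have h1 : f v + (Hf.filter (fun e => e.1 = v)).card = (M.filter (fun e => e.1 = v)).card := by
      have hdis : Disjoint (Fu.filter (fun e => e.1 = v)) (Hf.filter (fun e => e.1 = v)) := by
        rw [Finset.disjoint_left]
        intro e h1 h2
        rw [Finset.mem_filter, hFu, Finset.mem_filter] at h1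
        rw [Finset.mem_filter, hHf, Finset.mem_filter] at h2
        exact h2.1.2 h1.1.2
      change (Fu.filter (fun e => e.1 = v)).card + _ = _
      rw [← Finset.card_union_of_disjoint hdis]
      congr 1
      ext e
      simp only [Finset.mem_union, Finset.mem_filter, hFu, hHf]
      tauto
    rw [h1]
    exact ho v
  have hHi : ∀ v, f v + (Hf.filter (fun e => e.2 = v)).card ≤ 2 := by
    intro v
    have h1 : f v + (Hf.filter (fun e => e.2 = v)).card = (M.filter (fun e => e.2 = v)).card := by
      have hdis : Disjoint (Fu.filter (fun e => e.2 = v)) (Hf.filter (fun e => e.2 = v)) := by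
        rw [Finset.disjoint_left]
        intro e h1 h2
        rw [Finset.mem_filter, hFu, Finset.mem_filter] at h1
        rw [Finset.mem_filter, hHf, Finset.mem_filter] at h2
        exact h2.1.2 h1.1.2
      rw [hf2, ← Finset.card_union_of_disjoint hdis]
      congr 1
      ext e
      simp only [Finset.mem_union, Finset.mem_filter, hFu, hHf]
      tauto
    rw [h1]
    exact hi v
  have hHM : ∀ e ∈ Hf, e ∈ M ∧ (e.2, e.1) ∉ M := by
    intro e he
    rw [hHf, Finset.mem_filter] at he
    exact he
  -- the independent set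
  obtain ⟨Z, hZS, hZi, hZc⟩ := ind1 (Cf f) (Cf_symm f) (Cf_irr f) (L + 3) Hf
    (by
      intro a ha
      have h1 := Cf_card f Hf a
      have h2 := Ct_card f Hf hHo hHi a ha
      have h3 := Ch_card f Hf hHo hHi a ha
      omega)
    (by
      intro D hD hDn hD2
      refine girth_bound G L hNS f D (fun e he => hG e (hHM e (hD he)).1)
        (fun e he h => (hHM e (hD he)).2 (hHM _ (hD h)).1) ?_ ?_ hDn hD2
      · intro v
        have h1 := hHo v
        have h2 := Finset.card_le_card (Finset.filter_subset_filter (fun e : V × V => e.1 = v) hD)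
        omega
      · intro v
        have h1 := hHi v
        have h2 := Finset.card_le_card (Finset.filter_subset_filter (fun e : V × V => e.2 = v) hD)
        omega)
  -- the graph
  let Zs : Finset (V × V) := Z.image (fun e => (e.2, e.1))
  have hZs : ∀ u v, (u, v) ∈ Zs ↔ (v, u) ∈ Z := by
    intro u v
    simp only [Zs, Finset.mem_image]
    constructor
    · rintro ⟨⟨a, b⟩, h, heq⟩
      simp only [Prod.mk.injEq] at heq
      rw [← heq.1, ← heq.2]
      exact h
    · intro h
      exact ⟨(v, u), h, rfl⟩
  let P : Finset (V × V) := Fu ∪ (Z ∪ Zs)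
  have hPadj : ∀ u v, (u, v) ∈ P → G.Adj u v := by
    intro u v h
    rcases Finset.mem_union.mp h with h | h
    · rw [hFu, Finset.mem_filter] at h
      exact hG _ h.1
    · rcases Finset.mem_union.mp h with h | h
      · exact hG _ (hHM _ (hZS h)).1
      · rw [hZs] at h
        exact (hG _ (hHM _ (hZS h)).1).symm
  have hPsym : ∀ u v, (u, v) ∈ P → (v, u) ∈ P := by
    intro u v h
    rcases Finset.mem_union.mp h with h | h
    · refine Finset.mem_union_left _ ?_
      rw [hFu, Finset.mem_filter] at h ⊢
      exact ⟨h.2, h.1⟩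
    · refine Finset.mem_union_right _ ?_
      rcases Finset.mem_union.mp h with h | h
      · exact Finset.mem_union_right _ ((hZs v u).mpr h)
      · exact Finset.mem_union_left _ ((hZs u v).mp h)
  let F : SimpleGraph V :=
    { Adj := fun u v => (u, v) ∈ P
      symm := ⟨fun u v h => hPsym u v h⟩
      loopless := ⟨fun u h => G.loopless.irrefl u (hPadj u u h)⟩ }
  have hFP : ∀ u v, F.Adj u v ↔ (u, v) ∈ P := fun u v => Iff.rfl
  -- independence gives the degree bound
  have hdegZ : ∀ v, f v + (Z.filter (fun e => e.1 = v)).card + (Z.filter (fun e => e.2 = v)).card ≤ 2 := by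
    intro v
    have hoZ : f v + (Z.filter (fun e => e.1 = v)).card ≤ 2 := by
      have h1 := hHo v
      have h2 := Finset.card_le_card (Finset.filter_subset_filter (fun e : V × V => e.1 = v) hZS)
      omega
    have hiZ : f v + (Z.filter (fun e => e.2 = v)).card ≤ 2 := by
      have h1 := hHi v
      have h2 := Finset.card_le_card (Finset.filter_subset_filter (fun e : V × V => e.2 = v) hZS)
      omega
    rcases Nat.eq_zero_or_pos (f v) with h0 | h0
    · have h1 : (Z.filter (fun e => e.1 = v)).card ≤ 1 := by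
        rw [Finset.card_le_one]
        intro a ha b hb
        rw [Finset.mem_filter] at ha hb
        by_contra hne
        exact hZi a ha.1 b hb.1 ⟨hne, Or.inl ⟨ha.2.trans hb.2.symm, by rw [ha.2]; exact h0⟩⟩
      have h2 : (Z.filter (fun e => e.2 = v)).card ≤ 1 := by
        rw [Finset.card_le_one]
        intro a ha b hb
        rw [Finset.mem_filter] at ha hb
        by_contra hne
        exact hZi a ha.1 b hb.1
          ⟨hne, Or.inr (Or.inl ⟨ha.2.trans hb.2.symm, by rw [ha.2]; exact h0⟩)⟩
      omega
    · by_cases h1 : f v = 1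
      · have h2 : (Z.filter (fun e => e.1 = v)).card = 0 ∨ (Z.filter (fun e => e.2 = v)).card = 0 := by
          by_contra hcon
          push Not at hcon
          obtain ⟨a, ha⟩ := Finset.card_pos.mp (Nat.pos_of_ne_zero hcon.1)
          obtain ⟨b, hb⟩ := Finset.card_pos.mp (Nat.pos_of_ne_zero hcon.2)
          rw [Finset.mem_filter] at ha hb
          have hne : a ≠ b := by
            intro h
            subst h
            have h3 := (hHM _ (hZS ha.1)).1
            have h4 := hG _ h3
            rw [ha.2, hb.2] at h4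
            exact G.loopless.irrefl _ h4
          exact hZi a ha.1 b hb.1
            ⟨hne, Or.inr (Or.inr (Or.inr ⟨ha.2.trans hb.2.symm, by rw [ha.2]; exact h1⟩))⟩
        omega
      · omega
  refine ⟨F, ?_, ?_, ?_⟩
  · intro u v h
    exact hPadj u v h
  · intro v
    rw [dg_pairs F P hFP v]
    have h1 : (P.filter (fun e => e.1 = v)).card ≤ (Fu.filter (fun e => e.1 = v)).card +
        ((Z.filter (fun e => e.1 = v)).card + (Zs.filter (fun e => e.1 = v)).card) := by
      simp only [P, Finset.filter_union]
      refine (Finset.card_union_le _ _).trans ?_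
      exact Nat.add_le_add_left (Finset.card_union_le _ _) _
    have h2 : (Zs.filter (fun e => e.1 = v)).card ≤ (Z.filter (fun e => e.2 = v)).card := by
      refine Finset.card_le_card_of_injOn (fun e => (e.2, e.1)) ?_ ?_
      · rintro ⟨a, b⟩ h
        rw [Finset.mem_coe, Finset.mem_filter] at h ⊢
        exact ⟨(hZs a b).mp h.1, h.2⟩
      · rintro ⟨a1, a2⟩ _ ⟨b1, b2⟩ _ hab
        simp only [Prod.mk.injEq] at hab ⊢
        exact ⟨hab.2, hab.1⟩
    have h3 := hdegZ v
    have h4 : (Fu.filter (fun e => e.1 = v)).card = f v := rfl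
    omega
  · have h1 := two_ec F P hFP
    have h2 : P.card = Fu.card + 2 * Z.card := by
      have hd1 : Disjoint Z Zs := by
        rw [Finset.disjoint_left]
        rintro ⟨a, b⟩ h1 h2
        rw [hZs] at h2
        exact (hHM _ (hZS h1)).2 (hHM _ (hZS h2)).1
      have hd2 : Disjoint Fu (Z ∪ Zs) := by
        rw [Finset.disjoint_left]
        rintro ⟨a, b⟩ h1 h2
        rw [hFu, Finset.mem_filter] at h1
        rcases Finset.mem_union.mp h2 with h2 | h2
        · exact (hHM _ (hZS h2)).2 h1.2
        · rw [hZs] at h2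
          exact (hHM _ (hZS h2)).2 h1.1
      have hc : Zs.card = Z.card := by
        refine Finset.card_image_of_injective _ ?_
        rintro ⟨a1, a2⟩ ⟨b1, b2⟩ hab
        simp only [Prod.mk.injEq] at hab ⊢
        exact ⟨hab.2, hab.1⟩
      rw [Finset.card_union_of_disjoint hd2, Finset.card_union_of_disjoint hd1, hc]
      ring
    have h3 : M.card ≤ 2 * Fintype.card V := by
      rw [← sum_fst M]
      calc ∑ v, (M.filter (fun e => e.1 = v)).card ≤ ∑ _v : V, 2 :=
            Finset.sum_le_sum (fun v _ => ho v)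
        _ = 2 * Fintype.card V := by
            rw [Finset.sum_const, Finset.card_univ, smul_eq_mul, mul_comm]
    have h4 : Hf.card ≤ 2 * Fintype.card V := by omega
    have h5 : (L + 3) * M.card ≤ (L + 3) * (2 * ec F) + 2 * Fintype.card V := by
      rw [hcard, h1, h2]
      nlinarith
    have h6 : (0 : ℝ) < (L : ℝ) + 3 := by positivity
    have h7 : ((L : ℝ) + 3) * (M.card : ℝ) ≤
        ((L : ℝ) + 3) * (2 * (ec F : ℝ)) + 2 * (Fintype.card V : ℝ) := by
      exact_mod_cast h5
    have h8 : 2 * (Fintype.card V : ℝ) / ((L : ℝ) + 3) * ((L : ℝ) + 3) =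
        2 * (Fintype.card V : ℝ) := div_mul_cancel₀ _ h6.ne'
    by_contra hcon
    push Not at hcon
    have h9 := mul_lt_mul_of_pos_left hcon h6
    nlinarith

end Pool.Agent.W849.HC
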